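import Pool.Agent.PFE.StmtsE2

/-!
# PFE, block E2, row GUP: the universal property of `Γ`
-/

set_option autoImplicit false

open scoped BigOperators

noncomputable section

namespace Pool.Agent.PFE.H10

open Pool.Agent.PFE

section gup

variable {R Γ W B : Type} [CommRing R] [CommRing Γ] [Algebra R Γ] [CommGroup W] [Fintype W]
  [Ring B] [Algebra R B] {l : ℕ}

theorem gup_ext (G : GY R Γ W l) (f g : Γ →ₗ[R] B)
    (h : ∀ k w, f (G.y ^ k * G.om w) = g (G.y ^ k * G.om w)) (γ : Γ) : f γ = g γ := by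
  rw [← G.ex γ, map_sum, map_sum]
  refine Finset.sum_congr rfl fun k _ => ?_
  rw [map_sum, map_sum]
  refine Finset.sum_congr rfl fun w _ => ?_
  rw [map_smul, map_smul, h]

/-- the linear map -/
def gupL (G : GY R Γ W l) (Y : B) (U : W →* B) : Γ →ₗ[R] B :=
  ∑ k ∈ Finset.range l, ∑ w, (G.co k w).smulRight (Y ^ k * U w)

theorem gupL_apply (G : GY R Γ W l) (Y : B) (U : W →* B) (γ : Γ) :
    gupL G Y U γ = ∑ k ∈ Finset.range l, ∑ w, G.co k w γ • (Y ^ k * U w) := by
  rw [gupL, LinearMap.sum_apply]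
  refine Finset.sum_congr rfl fun k _ => ?_
  rw [LinearMap.sum_apply]
  rfl

theorem gupL_mon (G : GY R Γ W l) (Y : B) (U : W →* B) (hY : Y ^ l = 0) (k : ℕ) (w : W) :
    gupL G Y U (G.y ^ k * G.om w) = Y ^ k * U w := by
  classical
  by_cases hk : k < l
  · have hsum : ∀ (C : Type) [AddCommGroup C] [Module R C] (f : ℕ → W → C),
        ∑ k' ∈ Finset.range l, ∑ w', (if k' = k ∧ w' = w then (1 : R) else 0) • f k' w' =
          f k w := by
      intro C _ _ f
      rw [Finset.sum_eq_single k]
      · rw [Finset.sum_eq_single w]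
        · rw [if_pos ⟨rfl, rfl⟩, one_smul]
        · intro w' _ hw'
          rw [if_neg (fun h => hw' h.2), zero_smul]
        · intro h
          exact absurd (Finset.mem_univ w) h
      · intro k' _ hk'
        apply Finset.sum_eq_zero
        intro w' _
        rw [if_neg (fun h => hk' h.1), zero_smul]
      · intro h
        exact absurd (Finset.mem_range.2 hk) h
    have h1 := hsum Γ (fun k w => G.y ^ k * G.om w)
    rw [gupL_apply]
    rw [← hsum B (fun k w => Y ^ k * U w)]
    refine Finset.sum_congr rfl fun k' hk' => Finset.sum_congr rfl fun w' _ => ?_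
    have h2 := G.un (fun k' w' => if k' = k ∧ w' = w then (1 : R) else 0) k' w'
      (Finset.mem_range.1 hk')
    rw [h1] at h2
    rw [h2]
  · have h1 : G.y ^ k = 0 := pow_eq_zero_of_le (not_lt.1 hk) G.yl
    have h2 : Y ^ k = 0 := pow_eq_zero_of_le (not_lt.1 hk) hY
    rw [h1, h2, zero_mul, zero_mul, map_zero]

theorem gup : GupStmt := by
  intro R Γ W B _ _ _ _ _ _ _ l G Y U hl hY hc
  have hcp : ∀ (j : ℕ) (w : W), U w * Y ^ j = Y ^ j * U w := by
    intro j w
    have h : Commute Y (U w) := hc w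
    exact (h.pow_left j).symm
  have hmul : ∀ γ δ, gupL G Y U (γ * δ) = gupL G Y U γ * gupL G Y U δ := by
    intro γ δ
    refine gup_ext G ((gupL G Y U).comp (LinearMap.mulLeft R γ))
      ((LinearMap.mulLeft R (gupL G Y U γ)).comp (gupL G Y U)) ?_ δ
    intro j v
    refine gup_ext G ((gupL G Y U).comp (LinearMap.mulRight R (G.y ^ j * G.om v)))
      ((LinearMap.mulRight R (gupL G Y U (G.y ^ j * G.om v))).comp (gupL G Y U)) ?_ γ
    intro k w
    show gupL G Y U (G.y ^ k * G.om w * (G.y ^ j * G.om v)) =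
      gupL G Y U (G.y ^ k * G.om w) * gupL G Y U (G.y ^ j * G.om v)
    have h1 : G.y ^ k * G.om w * (G.y ^ j * G.om v) = G.y ^ (k + j) * G.om (w * v) := by
      rw [pow_add, map_mul]
      ring
    rw [h1, gupL_mon G Y U hY, gupL_mon G Y U hY, gupL_mon G Y U hY, pow_add, map_mul]
    calc Y ^ k * Y ^ j * (U w * U v) = Y ^ k * (Y ^ j * U w) * U v := by
          simp only [mul_assoc]
      _ = Y ^ k * (U w * Y ^ j) * U v := by rw [hcp]
      _ = Y ^ k * U w * (Y ^ j * U v) := by simp only [mul_assoc]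
  have hone : gupL G Y U 1 = 1 := by
    have h1 := gupL_mon G Y U hY 0 1
    rw [pow_zero, pow_zero, map_one, map_one, one_mul, one_mul] at h1
    exact h1
  refine ⟨AlgHom.ofLinearMap (gupL G Y U) hone hmul, ?_, ?_⟩
  · have h1 := gupL_mon G Y U hY 1 1
    rw [pow_one, pow_one, map_one, map_one, mul_one, mul_one] at h1
    exact h1
  · intro w
    have h1 := gupL_mon G Y U hY 0 w
    rw [pow_zero, pow_zero, one_mul, one_mul] at h1
    exact h1

end gup

end Pool.Agent.PFE.H10
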