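import Pool.Agent.PFE.StmtsE2b

/-!
# PFE, block E2, row LSE: the local algebra exists
-/

set_option autoImplicit false

open scoped BigOperators TensorProduct

noncomputable section

namespace Pool.Agent.PFE.H10

open Pool.Agent.PFE

theorem lse_desc {R N S T : Type} [CommRing R] [AddCommGroup N] [Module R N] [AddCommGroup S]
    [Module R S] [AddCommGroup T] [Module R T] (π : N →ₗ[R] S) (hπ : Function.Surjective π)
    (f : N →ₗ[R] T) (h : ∀ n, π n = 0 → f n = 0) : ∃ g : S →ₗ[R] T, ∀ n, g (π n) = f n := by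
  choose σ hσ using hπ
  have key : ∀ n n', π n = π n' → f n = f n' := by
    intro n n' hn
    have h1 := h (n - n') (by rw [map_sub, hn, sub_self])
    rw [map_sub, sub_eq_zero] at h1
    exact h1
  refine ⟨{ toFun := fun s => f (σ s), map_add' := ?_, map_smul' := ?_ }, ?_⟩
  · intro s t
    rw [← map_add]
    apply key
    rw [hσ, map_add, hσ, hσ]
  · intro r s
    rw [RingHom.id_apply, ← map_smul]
    apply key
    rw [hσ, map_smul, hσ]
  · intro n
    apply key
    exact hσ _

section lse

open Classical in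
/-- invariant matrices with entries in the `Nx` -/
def lseN {R A X : Type} [CommRing R] [Ring A] [Algebra R A] [Group X] [Fintype X] (y : A)
    (χ : X →* R) : Subalgebra R (Matrix X X A) where
  carrier := {M | (∀ u v t, M (u * t) (v * t) = M u v) ∧ ∀ u v, M u v ∈ Nx y χ (u * v⁻¹)}
  mul_mem' := by
    rintro M N ⟨h1, h2⟩ ⟨h3, h4⟩
    refine ⟨fun u v t => ?_, fun u v => ?_⟩
    · rw [Matrix.mul_apply, Matrix.mul_apply]
      rw [← Equiv.sum_comp (Equiv.mulRight t)]
      refine Finset.sum_congr rfl fun w _ => ?_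
      rw [Equiv.coe_mulRight, h1, h3]
    · rw [Matrix.mul_apply]
      refine Submodule.sum_mem _ fun w _ => ?_
      have h5 := Nx_mul (h2 u w) (h4 w v)
      have h6 : u * w⁻¹ * (w * v⁻¹) = u * v⁻¹ := by group
      rw [h6] at h5
      exact h5
  add_mem' := by
    rintro M N ⟨h1, h2⟩ ⟨h3, h4⟩
    refine ⟨fun u v t => ?_, fun u v => ?_⟩
    · rw [Matrix.add_apply, Matrix.add_apply, h1, h3]
    · rw [Matrix.add_apply]
      exact Submodule.add_mem _ (h2 u v) (h4 u v)
  algebraMap_mem' := by
    intro r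
    refine ⟨fun u v t => ?_, fun u v => ?_⟩
    · rw [Matrix.algebraMap_matrix_apply, Matrix.algebraMap_matrix_apply]
      by_cases h : u = v
      · rw [if_pos h, if_pos (by rw [h])]
      · rw [if_neg h, if_neg (fun h1 => h (mul_right_cancel h1))]
    · rw [Matrix.algebraMap_matrix_apply]
      by_cases h : u = v
      · rw [if_pos h, h, mul_inv_cancel, Algebra.algebraMap_eq_smul_one]
        exact Submodule.smul_mem _ _ (Nx_one y χ)
      · rw [if_neg h]
        exact Submodule.zero_mem _

variable {R A X : Type} [CommRing R] [Ring A] [Algebra R A] [Group X] [Fintype X] {y : A}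
  {χ : X →* R}

open Classical in
/-- the part of degree `x` -/
def lseC (y : A) (χ : X →* R) (x : X) : lseN y χ →ₗ[R] lseN y χ where
  toFun := fun M => ⟨Matrix.of fun u v => if u * v⁻¹ = x then (M : Matrix X X A) u v else 0, by
    refine ⟨fun u v t => ?_, fun u v => ?_⟩
    · rw [Matrix.of_apply, Matrix.of_apply]
      have h : u * t * (v * t)⁻¹ = u * v⁻¹ := by group
      rw [h, M.2.1]
    · rw [Matrix.of_apply]
      split_ifs
      · exact M.2.2 u v
      · exact Submodule.zero_mem _⟩
  map_add' := by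
    intro M N
    apply Subtype.ext
    ext u v
    show (if u * v⁻¹ = x then (M : Matrix X X A) u v + (N : Matrix X X A) u v else 0) =
      (if u * v⁻¹ = x then (M : Matrix X X A) u v else 0) +
        (if u * v⁻¹ = x then (N : Matrix X X A) u v else 0)
    split_ifs
    · rfl
    · rw [add_zero]
  map_smul' := by
    intro r M
    apply Subtype.ext
    ext u v
    show (if u * v⁻¹ = x then r • (M : Matrix X X A) u v else 0) =
      r • (if u * v⁻¹ = x then (M : Matrix X X A) u v else 0)
    split_ifs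
    · rfl
    · rw [smul_zero]

open Classical in
/-- homogeneous elements -/
def lseP (y : A) (χ : X →* R) (x : X) : Nx y χ x →ₗ[R] lseN y χ where
  toFun := fun a => ⟨Matrix.of fun u v => if u * v⁻¹ = x then (a : A) else 0, by
    refine ⟨fun u v t => ?_, fun u v => ?_⟩
    · rw [Matrix.of_apply, Matrix.of_apply]
      have h : u * t * (v * t)⁻¹ = u * v⁻¹ := by group
      rw [h]
    · rw [Matrix.of_apply]
      split_ifs with h
      · rw [h]
        exact a.2
      · exact Submodule.zero_mem _⟩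
  map_add' := by
    intro a b
    apply Subtype.ext
    ext u v
    show (if u * v⁻¹ = x then (a : A) + b else 0) =
      (if u * v⁻¹ = x then (a : A) else 0) + (if u * v⁻¹ = x then (b : A) else 0)
    split_ifs
    · rfl
    · rw [add_zero]
  map_smul' := by
    intro r a
    apply Subtype.ext
    ext u v
    show (if u * v⁻¹ = x then r • (a : A) else 0) = r • (if u * v⁻¹ = x then (a : A) else 0)
    split_ifs
    · rfl
    · rw [smul_zero]

open Classical in
theorem lseC_apply (x : X) (M : lseN y χ) (u v : X) :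
    (lseC y χ x M : Matrix X X A) u v = if u * v⁻¹ = x then (M : Matrix X X A) u v else 0 := rfl

open Classical in
theorem lseP_apply (x : X) (a : Nx y χ x) (u v : X) :
    (lseP y χ x a : Matrix X X A) u v = if u * v⁻¹ = x then (a : A) else 0 := rfl

theorem lse_n1 (M : lseN y χ) : ∑ x, lseC y χ x M = M := by
  classical
  apply Subtype.ext
  ext u v
  rw [AddSubmonoidClass.coe_finsetSum, Matrix.sum_apply]
  simp only [lseC_apply]
  rw [Finset.sum_ite_eq, if_pos (Finset.mem_univ _)]

theorem lse_n2 (x : X) (M : lseN y χ) : lseC y χ x (lseC y χ x M) = lseC y χ x M := by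
  apply Subtype.ext
  ext u v
  rw [lseC_apply, lseC_apply]
  split_ifs <;> rfl

theorem lse_n3 (x x' : X) (M : lseN y χ) (h : x ≠ x') : lseC y χ x (lseC y χ x' M) = 0 := by
  apply Subtype.ext
  ext u v
  rw [lseC_apply, lseC_apply]
  by_cases h1 : u * v⁻¹ = x
  · rw [if_pos h1, if_neg (fun h2 => h (h1.symm.trans h2))]
    rfl
  · rw [if_neg h1]
    rfl

theorem lse_n4 : lseC y χ 1 1 = 1 := by
  classical
  apply Subtype.ext
  ext u v
  rw [lseC_apply]
  by_cases h : u * v⁻¹ = 1
  · rw [if_pos h]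
  · rw [if_neg h]
    have h1 : u ≠ v := fun e => h (by rw [e, mul_inv_cancel])
    show (0 : A) = (1 : Matrix X X A) u v
    rw [Matrix.one_apply_ne h1]

theorem lse_n5 (x x' : X) (M N : lseN y χ) :
    lseC y χ (x * x') (lseC y χ x M * lseC y χ x' N) = lseC y χ x M * lseC y χ x' N := by
  apply Subtype.ext
  ext u v
  rw [lseC_apply]
  by_cases h : u * v⁻¹ = x * x'
  · rw [if_pos h]
  · rw [if_neg h]
    show (0 : A) = ((lseC y χ x M : Matrix X X A) * (lseC y χ x' N : Matrix X X A)) u v
    rw [Matrix.mul_apply]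
    symm
    apply Finset.sum_eq_zero
    intro w _
    rw [lseC_apply, lseC_apply]
    by_cases h1 : u * w⁻¹ = x
    · by_cases h2 : w * v⁻¹ = x'
      · exfalso
        apply h
        rw [← h1, ← h2]
        group
      · rw [if_neg h2, mul_zero]
    · rw [if_neg h1, zero_mul]

theorem lse_n6 (x : X) (a : Nx y χ x) : lseC y χ x (lseP y χ x a) = lseP y χ x a := by
  apply Subtype.ext
  ext u v
  rw [lseC_apply, lseP_apply]
  split_ifs <;> rfl

theorem lse_n7 (x : X) (M : lseN y χ) : ∃ a, lseP y χ x a = lseC y χ x M := by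
  have h := M.2.2 x 1
  have h0 : x * (1 : X)⁻¹ = x := by group
  rw [h0] at h
  refine ⟨⟨(M : Matrix X X A) x 1, h⟩, ?_⟩
  apply Subtype.ext
  ext u v
  rw [lseC_apply, lseP_apply]
  split_ifs with h1
  · have h2 := M.2.1 u v v⁻¹
    rw [mul_inv_cancel, h1] at h2
    exact h2
  · rfl

theorem lse_n9 : lseP y χ 1 ⟨1, Nx_one y χ⟩ = 1 := by
  classical
  apply Subtype.ext
  ext u v
  rw [lseP_apply]
  by_cases h : u = v
  · rw [h, mul_inv_cancel, if_pos rfl]
    show (1 : A) = (1 : Matrix X X A) v v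
    rw [Matrix.one_apply_eq]
  · rw [if_neg (fun h1 => h (mul_inv_eq_one.1 h1))]
    show (0 : A) = (1 : Matrix X X A) u v
    rw [Matrix.one_apply_ne h]

theorem lse_n10 (x x' : X) (a : Nx y χ x) (b : Nx y χ x') :
    lseP y χ x a * lseP y χ x' b = lseP y χ (x * x') ⟨a * b, Nx_mul a.2 b.2⟩ := by
  classical
  apply Subtype.ext
  ext u v
  show ((lseP y χ x a : Matrix X X A) * (lseP y χ x' b : Matrix X X A)) u v = _
  rw [Matrix.mul_apply, lseP_apply]
  by_cases h : u * v⁻¹ = x * x'
  · rw [if_pos h, Finset.sum_eq_single (x' * v)]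
    · rw [lseP_apply, lseP_apply, if_pos, if_pos]
      · group
      · rw [mul_inv_rev, ← mul_assoc, h]
        group
    · intro w _ hw
      rw [lseP_apply x', if_neg, mul_zero]
      intro h1
      apply hw
      rw [← h1]
      group
    · intro h1
      exact absurd (Finset.mem_univ _) h1
  · rw [if_neg h]
    apply Finset.sum_eq_zero
    intro w _
    rw [lseP_apply, lseP_apply]
    by_cases h1 : u * w⁻¹ = x
    · by_cases h2 : w * v⁻¹ = x'
      · exfalso
        apply h
        rw [← h1, ← h2]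
        group
      · rw [if_neg h2, mul_zero]
    · rw [if_neg h1, zero_mul]

end lse

theorem lse (txa : TxaStmt) : LseStmt := by
  classical
  intro R A X _ _ _ _ _ y l χ hl hy hχ
  have hT := (txa R A X y l χ hl hy hχ).2.2.2.2
  obtain ⟨J, hJ, hJ2⟩ : ∃ J : Ideal (lseN y χ), (∀ M, M ∈ J ↔
      ∀ u v, (M : Matrix X X A) u v ∈ Jx y l χ (u * v⁻¹)) ∧ J.IsTwoSided := by
    refine ⟨{ carrier := {M | ∀ u v, (M : Matrix X X A) u v ∈ Jx y l χ (u * v⁻¹)}
              add_mem' := ?_, zero_mem' := ?_, smul_mem' := ?_ }, fun M => Iff.rfl, ⟨?_⟩⟩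
    · intro M N hM hN u v
      exact Submodule.add_mem _ (hM u v) (hN u v)
    · intro u v
      exact Submodule.zero_mem _
    · intro M N hN u v
      show ((M : Matrix X X A) * (N : Matrix X X A)) u v ∈ _
      rw [Matrix.mul_apply]
      refine Submodule.sum_mem _ fun w _ => ?_
      have h5 := (hT _ _ _ _ (M.2.2 u w) (hN w v)).1
      have h6 : u * w⁻¹ * (w * v⁻¹) = u * v⁻¹ := by group
      rw [h6] at h5
      exact h5
    · intro M N hM u v
      show ((M : Matrix X X A) * (N : Matrix X X A)) u v ∈ _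
      rw [Matrix.mul_apply]
      refine Submodule.sum_mem _ fun w _ => ?_
      have h5 := (hT _ _ _ _ (N.2.2 w v) (hM u w)).2
      have h6 : u * w⁻¹ * (w * v⁻¹) = u * v⁻¹ := by group
      rw [h6] at h5
      exact h5
  have hJc : ∀ x, ∀ M ∈ J, lseC y χ x M ∈ J := by
    intro x M hM
    rw [hJ] at hM ⊢
    intro u v
    rw [lseC_apply]
    split_ifs
    · exact hM u v
    · exact Submodule.zero_mem _
  obtain ⟨π, hπ⟩ : ∃ π : lseN y χ →ₐ[R] (lseN y χ ⧸ J), π = Ideal.Quotient.mkₐ R J := ⟨_, rfl⟩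
  have hπs : Function.Surjective π := by
    rw [hπ]
    exact Ideal.Quotient.mkₐ_surjective R J
  have hπk : ∀ M, π M = 0 ↔ M ∈ J := by
    intro M
    rw [hπ]
    exact Ideal.Quotient.eq_zero_iff_mem
  have hc : ∀ x, ∃ g : (lseN y χ ⧸ J) →ₗ[R] (lseN y χ ⧸ J), ∀ M, g (π M) = π (lseC y χ x M) := by
    intro x
    refine lse_desc π.toLinearMap hπs (π.toLinearMap.comp (lseC y χ x)) ?_
    intro M hM
    show π (lseC y χ x M) = 0
    rw [hπk]
    exact hJc x M ((hπk M).1 hM)
  choose c hc using hc
  refine ⟨lseN y χ ⧸ J, inferInstance, inferInstance, ⟨{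
    c := c
    cs := ?_, ci := ?_, co := ?_, c1 := ?_, cm := ?_
    p := fun x => π.toLinearMap.comp (lseP y χ x)
    pc := ?_, ps := ?_, ker := ?_, one := ?_, mul := ?_ }⟩⟩
  · intro s
    obtain ⟨M, rfl⟩ := hπs s
    simp only [hc]
    rw [← map_sum, lse_n1]
  · intro x s
    obtain ⟨M, rfl⟩ := hπs s
    rw [hc, hc, lse_n2]
  · intro x x' s h
    obtain ⟨M, rfl⟩ := hπs s
    rw [hc, hc, lse_n3 x x' M h, map_zero]
  · rw [← map_one π, hc, lse_n4]
  · intro x x' s s'
    obtain ⟨M, rfl⟩ := hπs s
    obtain ⟨N, rfl⟩ := hπs s'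
    rw [hc, hc, ← map_mul, hc, lse_n5]
  · intro x a
    show c x (π (lseP y χ x a)) = π (lseP y χ x a)
    rw [hc, lse_n6]
  · intro x s
    obtain ⟨M, rfl⟩ := hπs s
    obtain ⟨a, ha⟩ := lse_n7 x M
    refine ⟨a, ?_⟩
    show π (lseP y χ x a) = c x (π M)
    rw [hc, ha]
  · intro x a
    show π (lseP y χ x a) = 0 ↔ _
    rw [hπk, hJ]
    constructor
    · intro h
      have h1 := h x 1
      have h0 : x * (1 : X)⁻¹ = x := by group
      rw [lseP_apply, h0, if_pos rfl] at h1
      exact h1
    · intro h u v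
      rw [lseP_apply]
      split_ifs with h1
      · rw [h1]
        exact h
      · exact Submodule.zero_mem _
  · show π (lseP y χ 1 ⟨1, Nx_one y χ⟩) = 1
    rw [lse_n9, map_one]
  · intro x x' a b
    show π (lseP y χ x a) * π (lseP y χ x' b) = π (lseP y χ (x * x') _)
    rw [← map_mul, lse_n10]

end Pool.Agent.PFE.H10
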