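import Pool.Agent.PFE.StmtsS

/-!
# Squad PFE, row PTT: relative traces for a subgroup of prime order
-/

open scoped BigOperators

namespace Pool.Agent.PFE.H10

open Pool.Agent.PFC Pool.Agent.PFE Pool.Agent.PFE.S

section

variable {V V1 : Type} [CommGroup V] [Finite V] [CommGroup V1] [Fintype V1] (i : V1 →* V)

theorem card_rng (hi : Function.Injective i) : Nat.card i.range = Nat.card V1 :=
  (Nat.card_congr (MonoidHom.ofInjective hi).toEquiv).symm

/-- proper subgroups of a group of prime order are trivial -/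
theorem bot_of_lt {ℓ : ℕ} [Fact ℓ.Prime] (hc : Nat.card V1 = ℓ) (hi : Function.Injective i)
    {K : Subgroup V} (hK : K < i.range) : K = ⊥ := by
  have h1 : Nat.card i.range = ℓ := by rw [← hc, card_rng i hi]
  have h2 : Nat.card K ∣ Nat.card i.range := Subgroup.card_dvd_of_le hK.le
  rw [h1] at h2
  rcases (Nat.dvd_prime Fact.out).1 h2 with h3 | h3
  · exact Subgroup.card_eq_one.1 h3
  · exact absurd (Subgroup.eq_of_le_of_card_ge hK.le (by rw [h1, h3])) hK.ne

theorem tv_eq [DecidableEq V] {S : Finset V} (hS : IsTv ⊥ i.range S) :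
    S = Finset.univ.image i := by
  ext x
  rw [Finset.mem_image]
  constructor
  · intro hx
    obtain ⟨v, hv⟩ := hS.1 x hx
    exact ⟨v, Finset.mem_univ _, hv⟩
  · rintro ⟨v, -, rfl⟩
    obtain ⟨s, ⟨hs, hs'⟩, -⟩ := hS.2 (i v) ⟨v, rfl⟩
    rw [Subgroup.mem_bot, inv_mul_eq_one] at hs'
    rwa [← hs']

theorem tv_sum {M : Type} [AddCommMonoid M] (hi : Function.Injective i) {S : Finset V}
    (hS : IsTv ⊥ i.range S) (g : V → M) : ∑ x ∈ S, g x = ∑ v : V1, g (i v) := by
  classical
  rw [tv_eq i hS, Finset.sum_image fun x _ y _ h => hi h]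

end

theorem ptt : PttStmt := by
  intro ℓ _ F V V1 M _ _ _ _ _ _ _ ρ i hc hi
  classical
  refine ⟨?_, ?_, ?_⟩
  · intro x hx
    unfold BK at hx
    induction hx using Submodule.span_induction with
    | mem x hx =>
      obtain ⟨P', S, m, hP, hS, -, rfl⟩ := hx
      obtain rfl := bot_of_lt i hc hi hP
      exact ⟨m, tv_sum i hi hS fun x => ρ x m⟩
    | zero => exact ⟨0, by simp⟩
    | add x y _ _ h1 h2 =>
      obtain ⟨a, rfl⟩ := h1
      obtain ⟨b, rfl⟩ := h2
      refine ⟨a + b, ?_⟩
      rw [← Finset.sum_add_distrib]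
      exact Finset.sum_congr rfl fun v _ => (map_add _ _ _).symm
    | smul c x _ h1 =>
      obtain ⟨a, rfl⟩ := h1
      refine ⟨c • a, ?_⟩
      rw [Finset.smul_sum]
      exact Finset.sum_congr rfl fun v _ => (map_smul _ _ _).symm
  · intro T hT
    unfold PT at hT
    induction hT using Submodule.span_induction with
    | mem T hT =>
      obtain ⟨K, S, h, hK, hS, -, hT⟩ := hT
      obtain rfl := bot_of_lt i hc hi hK
      refine ⟨h, fun m => ?_⟩
      rw [hT m]
      exact tv_sum i hi hS fun x => ρ x (h (ρ x⁻¹ m))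
    | zero => exact ⟨0, fun m => by simp⟩
    | add x y _ _ h1 h2 =>
      obtain ⟨a, ha⟩ := h1
      obtain ⟨b, hb⟩ := h2
      refine ⟨a + b, fun m => ?_⟩
      rw [LinearMap.add_apply, ha, hb, ← Finset.sum_add_distrib]
      exact Finset.sum_congr rfl fun v _ => by rw [LinearMap.add_apply, map_add]
    | smul c x _ h1 =>
      obtain ⟨a, ha⟩ := h1
      refine ⟨c • a, fun m => ?_⟩
      rw [LinearMap.smul_apply, ha, Finset.smul_sum]
      exact Finset.sum_congr rfl fun v _ => by rw [LinearMap.smul_apply, map_smul]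
  · intro m
    unfold BK
    refine Submodule.subset_span ⟨⊥, Finset.univ.image i, m, ?_, ⟨?_, ?_⟩, ?_, ?_⟩
    · rw [bot_lt_iff_ne_bot]
      intro h
      have h1 := card_rng i hi
      rw [h, hc, Subgroup.card_bot] at h1
      exact (Fact.out : ℓ.Prime).one_lt.ne h1
    · intro s hs
      obtain ⟨v, -, rfl⟩ := Finset.mem_image.1 hs
      exact ⟨v, rfl⟩
    · rintro p ⟨v, rfl⟩
      refine ⟨i v, ⟨Finset.mem_image_of_mem _ (Finset.mem_univ _), ?_⟩, ?_⟩
      · rw [inv_mul_cancel]
        exact Subgroup.one_mem _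
      · rintro s ⟨-, hs⟩
        rw [Subgroup.mem_bot, inv_mul_eq_one] at hs
        exact hs
    · intro h hh
      rw [Subgroup.mem_bot] at hh
      rw [hh, map_one]
      rfl
    · rw [Finset.sum_image fun x _ y _ h => hi h]

end Pool.Agent.PFE.H10
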