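import Pool.Agent.PFE.StmtsE1

/-!
# Squad PFE, row RFC: the relative Frobenius system of `A` over `C` and the separating element
-/

open scoped BigOperators

namespace Pool.Agent.PFE.H10

open Pool.Agent.PFC.B1 (FS Split)
open Pool.Agent.PFD (RF)
open Pool.Agent.PFE

section abs

variable {A I N : Type} [Ring A] [Fintype I] [Fintype N] {g g' : I → A} {e e' : N → A}
  {pi rh : A → A} {q w : A}

theorem ab1 (H2 : ∀ a, ∑ o, pi (a * g o) * g' o = rh a)
    (H3 : ∀ a, ∑ r, e r * pi (e' r * a) = a) (H5 : ∀ a, q * pi a = pi a * q)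
    (H7 : ∑ o, g o * q * g' o = 1) (a : A) : ∑ r, e r * q * rh (e' r * a) = a := by
  have h5 : ∀ a b, q * (pi a * b) = pi a * (q * b) := fun a b => by
    rw [← mul_assoc, H5, mul_assoc]
  calc ∑ r, e r * q * rh (e' r * a)
      = ∑ r, ∑ o, e r * pi (e' r * (a * g o)) * (q * g' o) := by
        refine Finset.sum_congr rfl fun r _ => ?_
        rw [← H2, Finset.mul_sum]
        refine Finset.sum_congr rfl fun o _ => ?_
        simp only [mul_assoc, h5]
    _ = ∑ o, a * (g o * q * g' o) := by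
        rw [Finset.sum_comm]
        refine Finset.sum_congr rfl fun o _ => ?_
        rw [← Finset.sum_mul, H3]
        simp only [mul_assoc]
    _ = a := by rw [← Finset.mul_sum, H7, mul_one]

theorem ab2 (H1 : ∀ a, ∑ o, g o * pi (g' o * a) = rh a)
    (H4 : ∀ a, ∑ r, pi (a * e r) * e' r = a) (H6 : ∀ b, pi (b * q) = pi (q * b))
    (H7 : ∑ o, g o * q * g' o = 1) (a : A) : ∑ r, rh (a * (e r * q)) * e' r = a := by
  calc ∑ r, rh (a * (e r * q)) * e' r
      = ∑ r, ∑ o, g o * (pi (q * g' o * a * e r) * e' r) := by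
        refine Finset.sum_congr rfl fun r _ => ?_
        rw [← H1, Finset.sum_mul]
        refine Finset.sum_congr rfl fun o _ => ?_
        have h : g' o * (a * (e r * q)) = (g' o * a * e r) * q := by simp only [mul_assoc]
        rw [h, H6]
        simp only [mul_assoc]
    _ = ∑ o, g o * q * g' o * a := by
        rw [Finset.sum_comm]
        refine Finset.sum_congr rfl fun o _ => ?_
        rw [← Finset.mul_sum, H4]
        simp only [mul_assoc]
    _ = a := by rw [← Finset.sum_mul, H7, one_mul]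

theorem ab3 (H1 : ∀ a, ∑ o, g o * pi (g' o * a) = rh a)
    (H2 : ∀ a, ∑ o, pi (a * g o) * g' o = rh a) (H5 : ∀ a, w * pi a = pi a * w) (c : A)
    (h1 : ∀ o, rh (c * g o) = c * g o) (h2 : ∀ o, rh (g' o * c) = g' o * c) :
    c * ∑ o, g o * w * g' o = (∑ o, g o * w * g' o) * c := by
  have h5 : ∀ a b, w * (pi a * b) = pi a * (w * b) := fun a b => by
    rw [← mul_assoc, H5, mul_assoc]
  calc c * ∑ o, g o * w * g' o
      = ∑ o, ∑ p, g p * w * (pi (g' p * c * g o) * g' o) := by
        rw [Finset.mul_sum]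
        refine Finset.sum_congr rfl fun o _ => ?_
        have h3 : c * (g o * w * g' o) = (c * g o) * (w * g' o) := by simp only [mul_assoc]
        rw [h3, ← h1, ← H1, Finset.sum_mul]
        refine Finset.sum_congr rfl fun p _ => ?_
        simp only [mul_assoc, h5]
    _ = ∑ p, g p * w * (g' p * c) := by
        rw [Finset.sum_comm]
        refine Finset.sum_congr rfl fun p _ => ?_
        rw [← Finset.mul_sum, H2, h2]
    _ = _ := by
        rw [Finset.sum_mul]
        refine Finset.sum_congr rfl fun p _ => ?_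
        simp only [mul_assoc]

theorem ab4 (H1 : ∀ a, ∑ o, g o * pi (g' o * a) = rh a)
    (H4 : ∀ a, ∑ r, pi (a * e r) * e' r = a) (H5 : ∀ a, w * pi a = pi a * w)
    (he : ∀ a, ∑ r, e r * q * rh (e' r * a) = a) (H8 : ∑ r, e r * w * e' r = 1) :
    ∑ r, e r * q * (∑ o, g o * w * g' o) * e' r = 1 := by
  have h5 : ∀ a b, w * (pi a * b) = pi a * (w * b) := fun a b => by
    rw [← mul_assoc, H5, mul_assoc]
  calc ∑ r, e r * q * (∑ o, g o * w * g' o) * e' r
      = ∑ r, ∑ s, e r * q * rh (e' r * e s) * (w * e' s) := by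
        refine Finset.sum_congr rfl fun r _ => ?_
        have h1 : (∑ o, g o * w * g' o) * e' r = ∑ s, rh (e' r * e s) * (w * e' s) := by
          calc (∑ o, g o * w * g' o) * e' r
              = ∑ o, ∑ s, g o * pi (g' o * (e' r * e s)) * (w * e' s) := by
                rw [Finset.sum_mul]
                refine Finset.sum_congr rfl fun o _ => ?_
                have h2 : g o * w * g' o * e' r = g o * w * (g' o * e' r) := by
                  simp only [mul_assoc]
                rw [h2, ← H4 (g' o * e' r), Finset.mul_sum]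
                refine Finset.sum_congr rfl fun s _ => ?_
                simp only [mul_assoc, h5]
            _ = _ := by
                rw [Finset.sum_comm]
                refine Finset.sum_congr rfl fun s _ => ?_
                rw [← Finset.sum_mul, H1]
        rw [mul_assoc, h1, Finset.mul_sum]
        refine Finset.sum_congr rfl fun s _ => ?_
        simp only [mul_assoc]
    _ = ∑ s, e s * w * e' s := by
        rw [Finset.sum_comm]
        refine Finset.sum_congr rfl fun s _ => ?_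
        rw [← Finset.sum_mul, he, mul_assoc]
    _ = 1 := H8

end abs

section tw

variable {K S C X Ω : Type} [Field K] [Ring S] [Algebra K S] [Ring C] [Algebra K C] [Group X]
  [Fintype X] [Fintype Ω] {G : GS K S X} {l : ℕ} {χ : X →* K} (Q : CC K S C X G l χ)

theorem ypow (k : ℕ) (s : S) : Q.y ^ k * Q.i s = Q.i ((G.sg χ ^ k) s) * Q.y ^ k := by
  induction k generalizing s with
  | zero => rw [pow_zero, pow_zero, one_mul, mul_one]; rfl
  | succ k ih =>
    rw [pow_succ, mul_assoc, Q.ys, ← mul_assoc, ih, mul_assoc, ← pow_succ, pow_succ (G.sg χ)]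
    rfl

theorem co_i_mul {k : ℕ} (hk : k < l) (t : S) (c : C) : Q.co k (Q.i t * c) = t * Q.co k c := by
  have h : Q.i t * c = ∑ j ∈ Finset.range l, Q.i (t * Q.co j c) * Q.y ^ j := by
    conv_lhs => rw [← Q.ex c]
    rw [Finset.mul_sum]
    refine Finset.sum_congr rfl fun j _ => ?_
    rw [map_mul, mul_assoc]
  rw [h, Q.un (fun j => t * Q.co j c) k hk]

theorem co_mul_i {k : ℕ} (hk : k < l) (c : C) (t : S) :
    Q.co k (c * Q.i t) = Q.co k c * (G.sg χ ^ k) t := by
  have h : c * Q.i t = ∑ j ∈ Finset.range l, Q.i (Q.co j c * (G.sg χ ^ j) t) * Q.y ^ j := by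
    conv_lhs => rw [← Q.ex c]
    rw [Finset.sum_mul]
    refine Finset.sum_congr rfl fun j _ => ?_
    rw [mul_assoc, ypow, map_mul, mul_assoc]
  rw [h, Q.un (fun j => Q.co j c * (G.sg χ ^ j) t) k hk]

theorem co_mono {k n : ℕ} (hk : k < l) (hn : n < l) (s : S) :
    Q.co k (Q.i s * Q.y ^ n) = if k = n then s else 0 := by
  have h : Q.i s * Q.y ^ n =
      ∑ j ∈ Finset.range l, Q.i (if j = n then s else 0) * Q.y ^ j := by
    rw [Finset.sum_eq_single_of_mem n (Finset.mem_range.2 hn)]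
    · rw [if_pos rfl]
    · intro j _ hj
      rw [if_neg hj, map_zero, zero_mul]
  rw [h, Q.un (fun j => if j = n then s else 0) k hk]

theorem co_top {m : ℕ} (hm : m < l) (c : C) :
    Q.co (l - 1) (Q.y ^ (l - 1 - m) * c) = (G.sg χ ^ (l - 1 - m)) (Q.co m c) := by
  have h : Q.y ^ (l - 1 - m) * c =
      ∑ j ∈ Finset.range l, Q.i ((G.sg χ ^ (l - 1 - m)) (Q.co j c)) * Q.y ^ (l - 1 - m + j) := by
    conv_lhs => rw [← Q.ex c]
    rw [Finset.mul_sum]
    refine Finset.sum_congr rfl fun j _ => ?_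
    rw [← mul_assoc, ypow, mul_assoc, ← pow_add]
  rw [h, map_sum, Finset.sum_eq_single_of_mem m (Finset.mem_range.2 hm)]
  · have e : l - 1 - m + m = l - 1 := by omega
    rw [e, co_mono Q (by omega) (by omega), if_pos rfl]
  · intro j _ hj
    by_cases hlt : l - 1 - m + j < l
    · rw [co_mono Q (by omega) hlt, if_neg (by omega)]
    · have h0 : Q.y ^ (l - 1 - m + j) = 0 := pow_eq_zero_of_le (by omega) Q.yl
      rw [h0, mul_zero, map_zero]

/-- the projection to the span of the powers of `y` -/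
noncomputable def p0 (t : S →ₗ[K] K) (c : C) : C := ∑ k ∈ Finset.range l, t (Q.co k c) • Q.y ^ k

theorem k1 (f : FS K S Ω) (c : C) :
    ∑ o, Q.i (f.b o) * p0 Q f.lam (Q.i (f.b' o) * c) = c := by
  have h : ∀ o, Q.i (f.b o) * p0 Q f.lam (Q.i (f.b' o) * c) =
      ∑ k ∈ Finset.range l, Q.i (f.lam (f.b' o * Q.co k c) • f.b o) * Q.y ^ k := by
    intro o
    unfold p0
    rw [Finset.mul_sum]
    refine Finset.sum_congr rfl fun k hk => ?_
    rw [co_i_mul Q (Finset.mem_range.1 hk), mul_smul_comm, map_smul, smul_mul_assoc]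
  simp only [h]
  rw [Finset.sum_comm]
  conv_rhs => rw [← Q.ex c]
  refine Finset.sum_congr rfl fun k _ => ?_
  rw [← Finset.sum_mul, ← map_sum, f.h1]

theorem k2 (f : FS K S Ω)
    (hs : ∀ k s, ∑ o, f.lam (s * (G.sg χ ^ k) (f.b o)) • (G.sg χ ^ k) (f.b' o) = s) (c : C) :
    ∑ o, p0 Q f.lam (c * Q.i (f.b o)) * Q.i (f.b' o) = c := by
  have h : ∀ o, p0 Q f.lam (c * Q.i (f.b o)) * Q.i (f.b' o) =
      ∑ k ∈ Finset.range l, Q.i (f.lam (Q.co k c * (G.sg χ ^ k) (f.b o)) •
        (G.sg χ ^ k) (f.b' o)) * Q.y ^ k := by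
    intro o
    unfold p0
    rw [Finset.sum_mul]
    refine Finset.sum_congr rfl fun k hk => ?_
    rw [co_mul_i Q (Finset.mem_range.1 hk), smul_mul_assoc, ypow, map_smul, smul_mul_assoc]
  simp only [h]
  rw [Finset.sum_comm]
  conv_rhs => rw [← Q.ex c]
  refine Finset.sum_congr rfl fun k _ => ?_
  rw [← Finset.sum_mul, ← map_sum, hs]

end tw

theorem pi_comm {K A X J Ω Ω' : Type} [Field K] [Ring A] [Algebra K A] [Group X] [Fintype J]
    [Fintype Ω] [Fintype Ω'] {y : A} {l : ℕ} {χ : X →* K} (D : Yd K A X J Ω Ω' y l χ) {z : A}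
    (hz : z * y = y * z) (a : A) : z * D.pi a = D.pi a * z := by
  unfold Yd.pi
  rw [Finset.mul_sum, Finset.sum_mul]
  refine Finset.sum_congr rfl fun i _ => ?_
  have h : z * y ^ i = y ^ i * z := (show Commute z y from hz).pow_right i
  rw [mul_smul_comm, smul_mul_assoc, h]

theorem pi_swap {K A X J Ω Ω' : Type} [Field K] [Ring A] [Algebra K A] [Group X] [Fintype J]
    [Fintype Ω] [Fintype Ω'] {y : A} {l : ℕ} {χ : X →* K} (D : Yd K A X J Ω Ω' y l χ) {z : A}
    (hz : z * y = y * z) (a : A) : D.pi (a * z) = D.pi (z * a) := by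
  unfold Yd.pi
  refine Finset.sum_congr rfl fun i _ => ?_
  have h : z * y ^ (l - 1 - i) = y ^ (l - 1 - i) * z := (show Commute z y from hz).pow_right _
  rw [← mul_assoc, D.ds, ← mul_assoc, h, mul_assoc]

theorem rfc (hR : RtkStmt) (hG : SgrStmt) : RfcStmt := by
  intro K A X S J Ω Ω' C _ _ _ _ _ _ _ _ _ _ _ _ y l χ D L F E pr hpr hpl hprr hpo
  obtain ⟨R1, R2, -, -, -, -, -, -⟩ := hR K A X J Ω Ω' y l χ D.toYd
  obtain ⟨-, -, -, s4, s5, -, s7⟩ := hG K S X Ω L.toGS F.toSF l χ D.χl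
  have hl := D.hl
  -- the unit
  have hu1 : E.u' * E.u = 1 := by rw [← E.uc, E.uu]
  have hu2 : ∀ c, E.u' * c = c * E.u' := by
    intro c
    calc E.u' * c = E.u' * c * (E.u * E.u') := by rw [E.uu, mul_one]
      _ = E.u' * (c * E.u) * E.u' := by simp only [mul_assoc]
      _ = E.u' * (E.u * c) * E.u' := by rw [E.uc]
      _ = E.u' * E.u * (c * E.u') := by simp only [mul_assoc]
      _ = c * E.u' := by rw [hu1, one_mul]
  have hjp : ∀ k : ℕ, y ^ k = E.j (E.Q.y ^ k) := fun k => by rw [map_pow, E.jy]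
  have hts : ∀ (k : ℕ) (s : S), F.f.lam ((L.toGS.sg χ ^ k) s) = F.f.lam s := by
    intro k
    induction k with
    | zero => intro s; rw [pow_zero]; rfl
    | succ k ih =>
      intro s
      rw [pow_succ]
      show F.f.lam ((L.toGS.sg χ ^ k) (L.toGS.sg χ s)) = _
      rw [ih, s4]
  -- `pi` on `C`
  have hpj : ∀ c, D.pi (E.j c) = E.j (p0 E.Q F.f.lam (E.u * c)) := by
    intro c
    unfold Yd.pi p0
    rw [map_sum]
    refine Finset.sum_congr rfl fun i hi => ?_
    rw [map_smul, ← hjp, hjp (l - 1 - i), ← map_mul, E.ut, E.t0e]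
    have h : E.u * (E.Q.y ^ (l - 1 - i) * c) = E.Q.y ^ (l - 1 - i) * (E.u * c) := by
      rw [← mul_assoc, E.uc, mul_assoc]
    rw [h, co_top E.Q (Finset.mem_range.1 hi), hts]
  have hpp : ∀ a, D.pi a = D.pi (E.j (pr a)) := by
    intro a
    unfold Yd.pi
    refine Finset.sum_congr rfl fun i _ => ?_
    rw [hjp (l - 1 - i), ← map_mul, ← hpl, hpo]
  -- the families
  let g : Ω → A := fun o => E.j (E.Q.i (F.f.b o))
  let g' : Ω → A := fun o => E.j (E.u' * E.Q.i (F.f.b' o))
  let q : A := E.j (E.u * E.Q.i F.w)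
  have hsw : L.toGS.sg χ F.w = F.w := by
    have h := s5 1 F.w
    rwa [F.w1, map_one, one_smul] at h
  have hqy : q * y = y * q := by
    have h : E.u * E.Q.i F.w * E.Q.y = E.Q.y * (E.u * E.Q.i F.w) := by
      rw [← mul_assoc, ← E.uc, mul_assoc, mul_assoc, E.Q.ys, hsw]
    have h2 := congrArg E.j h
    rw [map_mul, map_mul E.j E.Q.y, E.jy] at h2
    exact h2
  have H1 : ∀ a, ∑ o, g o * D.pi (g' o * a) = E.j (pr a) := by
    intro a
    have h : ∀ o, g o * D.pi (g' o * a) =
        E.j (E.Q.i (F.f.b o) * p0 E.Q F.f.lam (E.Q.i (F.f.b' o) * pr a)) := by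
      intro o
      show E.j (E.Q.i (F.f.b o)) * D.pi (E.j (E.u' * E.Q.i (F.f.b' o)) * a) = _
      rw [hpp, hpl, hpj, ← map_mul]
      have h1 : E.u * (E.u' * E.Q.i (F.f.b' o) * pr a) = E.Q.i (F.f.b' o) * pr a := by
        rw [mul_assoc, ← mul_assoc, E.uu, one_mul]
      rw [h1]
    simp only [h]
    rw [← map_sum, k1]
  have H2 : ∀ a, ∑ o, D.pi (a * g o) * g' o = E.j (pr a) := by
    intro a
    have h : ∀ o, D.pi (a * g o) * g' o =
        E.j (E.u' * (p0 E.Q F.f.lam (E.u * pr a * E.Q.i (F.f.b o)) * E.Q.i (F.f.b' o))) := by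
      intro o
      show D.pi (a * E.j (E.Q.i (F.f.b o))) * E.j (E.u' * E.Q.i (F.f.b' o)) = _
      rw [hpp, hprr, hpj, ← map_mul, ← mul_assoc, ← mul_assoc, ← hu2, mul_assoc, mul_assoc]
    simp only [h]
    rw [← map_sum, ← Finset.mul_sum, k2 E.Q F.f s7, ← mul_assoc, hu1, one_mul]
  have H7 : ∑ o, g o * q * g' o = 1 := by
    have h : ∀ o, g o * q * g' o = E.j (E.Q.i (F.f.b o * F.w * F.f.b' o)) := by
      intro o
      show E.j (E.Q.i (F.f.b o)) * E.j (E.u * E.Q.i F.w) * E.j (E.u' * E.Q.i (F.f.b' o)) = _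
      rw [← map_mul, ← map_mul]
      congr 1
      calc E.Q.i (F.f.b o) * (E.u * E.Q.i F.w) * (E.u' * E.Q.i (F.f.b' o))
          = (E.Q.i (F.f.b o) * E.u) * (E.Q.i F.w * E.u') * E.Q.i (F.f.b' o) := by
            simp only [mul_assoc]
        _ = (E.u * E.Q.i (F.f.b o)) * (E.u' * E.Q.i F.w) * E.Q.i (F.f.b' o) := by
            rw [E.uc, hu2]
        _ = E.u * (E.Q.i (F.f.b o) * E.u') * (E.Q.i F.w * E.Q.i (F.f.b' o)) := by
            simp only [mul_assoc]
        _ = (E.u * E.u') * (E.Q.i (F.f.b o) * E.Q.i F.w * E.Q.i (F.f.b' o)) := by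
            rw [← hu2]
            simp only [mul_assoc]
        _ = _ := by rw [E.uu, one_mul, map_mul, map_mul]
    simp only [h]
    rw [← map_sum, ← map_sum, F.sep, map_one, map_one]
  have H5 : ∀ a, q * D.pi a = D.pi a * q := pi_comm D.toYd hqy
  have H5w : ∀ a, D.w * D.pi a = D.pi a * D.w := pi_comm D.toYd D.wy.symm
  have H6 : ∀ b, D.pi (b * q) = D.pi (q * b) := pi_swap D.toYd hqy
  have e1 := ab1 (e := D.e) (e' := D.e') (pi := D.pi) (rh := fun a => E.j (pr a)) H2 R1 H5 H7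
  have e2 := ab2 (e := D.e) (e' := D.e') (pi := D.pi) (rh := fun a => E.j (pr a)) H1 R2 H6 H7
  refine ⟨⟨fun r => D.e r * q, D.e', e1, e2⟩, ∑ o, g o * D.w * g' o, ?_, ?_⟩
  · intro c
    refine ab3 (pi := D.pi) (rh := fun a => E.j (pr a)) H1 H2 H5w (E.j c) ?_ ?_
    · intro o
      show E.j (pr (E.j c * E.j (E.Q.i (F.f.b o)))) = E.j c * E.j (E.Q.i (F.f.b o))
      rw [← map_mul, hpr]
    · intro o
      show E.j (pr (E.j (E.u' * E.Q.i (F.f.b' o)) * E.j c)) =
        E.j (E.u' * E.Q.i (F.f.b' o)) * E.j c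
      rw [← map_mul, hpr]
  · exact ab4 (pi := D.pi) (rh := fun a => E.j (pr a)) H1 R2 H5w e1 D.rw

end Pool.Agent.PFE.H10
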